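import Pool.Agent.H515.KS.Comb
import Pool.Agent.H515.KS.Arith

/-!
# The pairs `(C(n, k) e, m)` for which the `m`-rank of the class groups of the number fields of degree
`C(n, k) e` is unbounded

Idea. Let `f` be a monic integral polynomial of degree `n` with `k`-transitive Galois group and let `K` be the field
of degree `C(n, k)` fixed by the stabilizer of a `k`-subset of the roots. Let `p` run over primes with
`f = x^M (x - 1) ... (x - φ) + p` modulo `p^2`, where `M + φ = n`. The inertia group at `p` is generated by an `M`-cycle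
`τ` with `φ` fixed points. For every weight `G` on the sets `F` of fixed points with `gcd(M, k - |F|) ∣ G(F)` there is
a fractional ideal `J_p` of `K` whose valuation at the `k`-subset `S` is, in units of `1 / M`, the number `G` of the set
of the fixed points in `S`. We take for `G` a multiple `c` of the weight `∏_{l ≤ j} ([α_l ∈ S] - [β_l ∈ S])` (`α_l, β_l`
fixed points); its sum `Σ_E (-1)^|E| G(T ∪ {v_l : l ∈ E} ∪ {u_l : l ∉ E})` does not depend on `T`. So for a relation
`∏ J_p^{v_p} = (z)` the products `∏_E z_{T, u, v, E}^{±1}` for different `T` and the same `u, v` have the same divisor,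
and their quotients are units of the splitting field `L`. There are boundedly many classes of units modulo `M`-th
powers, so one may suppose that they are `M`-th powers in `L`; moving `T` by `τ` and keeping `u, v` among the fixed
points one gets `M ∣ c δ v_p`, where `δ` (`2` for `φ = 2 j > 0` and `1` otherwise) is the sum above for suitable `u, v`.
Several types `(M, φ, j)` are used in one field to get the different prime powers of `m`.
-/

set_option autoImplicit false

namespace Pool.Agent.Results.MP_176ace_nt.BinomialDegrees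

open NumberField

/-- The statement `S(d, m)` of the problem: for every `r` some number field of degree `d` has a class group
containing a subgroup isomorphic to `(ℤ/m)^r`. -/
def Unbounded (d m : ℕ) : Prop :=
  ∀ r : ℕ, ∃ (K : Type) (_ : Field K) (_ : NumberField K), Module.finrank ℚ K = d ∧
    ∃ f : Multiplicative (Fin r → ZMod m) →* ClassGroup (𝓞 K), Function.Injective f

theorem general {n k m e m' : ℕ} (hn : 1 ≤ n) (hk : k ≤ n) (hm : 0 < m) (he : 0 < e)
    (h : ∀ p b, p.Prime → p ^ b ∣ m → b ≠ 0 → ∃ φ j c : ℕ, φ < n ∧ 2 * j ≤ φ ∧ j ≤ k ∧ k + j ≤ n ∧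
      (∀ s, j ≤ s → s + j ≤ φ → s ≤ k → Nat.gcd (n - φ) (k - s) ∣ c) ∧
      p ^ b ∣ (n - φ) / Nat.gcd (n - φ) (c * if φ = 2 * j ∧ j ≠ 0 then 2 else 1)) (hm' : m' ∣ m * e) :
    Unbounded (n.choose k * e) m' :=
  R493.CR.mono (mul_ne_zero hm.ne' he.ne') hm'
    (R493.CR.closure hm.ne' he.ne' (Pool.Agent.H515.KS.master hm.ne' hn hk h))

theorem explicit {n k m e m' : ℕ} (hk : 2 ≤ k) (hn : 2 * k ≤ n) (hm : 0 < m) (he : 0 < e)
    (h : ∀ p b, p.Prime → p ^ b ∣ m → b ≠ 0 → (p ^ b = 2 ∧ (k = 2 → n % 4 ≠ 3)) ∨ (p ≠ 2 ∧ p ^ b ≤ k) ∨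
      (k < p ∧ ∃ i ≤ 2 * k - 2, p ^ b ∣ n - i)) (hm' : m' ∣ m * e) :
    Unbounded (n.choose k * e) m' := by
  apply general (by omega) (by omega) hm he _ hm'
  intro p b hp hd hb
  rcases h p b hp hd hb with ⟨h1, h2⟩ | ⟨h1, h2⟩ | ⟨h1, i, h2, h3⟩
  · rw [h1]
    exact Pool.Agent.H515.KS.cfg_two hk hn h2
  · exact Pool.Agent.H515.KS.cfg_small hn hp h1 hb h2
  · exact Pool.Agent.H515.KS.cfg_large hk hn hp h1 h2 h3

theorem sqfree {n k m e m' : ℕ} (hk : 3 ≤ k) (hn : 2 * k ≤ n) (hm : Squarefree m) (he : 0 < e)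
    (h : ∀ p, p.Prime → p ∣ m → p ∣ n.descFactorial (2 * k - 1)) (hm' : m' ∣ m * e) :
    Unbounded (n.choose k * e) m' := by
  apply explicit (by omega) hn (Nat.pos_of_ne_zero hm.ne_zero) he _ hm'
  intro p b hp hd hb
  have hb1 : b = 1 := by
    by_contra hne
    have h2 : p * p ∣ m := by
      have h3 : p ^ 2 ∣ m := (pow_dvd_pow p (by omega)).trans hd
      rwa [pow_two] at h3
    exact hp.one_lt.ne' (Nat.isUnit_iff.1 (hm p h2))
  subst hb1
  rw [pow_one] at hd ⊢
  by_cases h2 : p = 2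
  · exact Or.inl ⟨h2, by omega⟩
  by_cases hpk : p ≤ k
  · exact Or.inr (Or.inl ⟨h2, hpk⟩)
  · have h3 := h p hp hd
    rw [Nat.descFactorial_eq_prod_range, hp.prime.dvd_finsetProd_iff] at h3
    obtain ⟨i, hi, h3⟩ := h3
    rw [Finset.mem_range] at hi
    exact Or.inr (Or.inr ⟨by omega, i, by omega, h3⟩)

/-- **Main result.** -/
theorem result :
    -- squarefree `m`
    (∀ n k m e m' : ℕ, 3 ≤ k → 2 * k ≤ n → 0 < e → Squarefree m → m ∣ n.descFactorial (2 * k - 1) → m' ∣ m * e →
      Unbounded (n.choose k * e) m') ∧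
    (∀ n k m e m' : ℕ, 3 ≤ k → 2 * k ≤ n → 0 < e → Squarefree m → (∀ p, p.Prime → p ∣ m → p < 2 * k) → m' ∣ m * e →
      Unbounded (n.choose k * e) m') ∧
    -- odd `m ≤ k`
    (∀ n k m e m' : ℕ, Odd m → m ≤ k → 2 * k ≤ n → 0 < e → m' ∣ m * e → Unbounded (n.choose k * e) m') ∧
    -- general `m`, by conditions on the prime powers dividing `m`
    (∀ n k m e m' : ℕ, 2 ≤ k → 2 * k ≤ n → 0 < m → 0 < e →
      (∀ p b, p.Prime → p ^ b ∣ m → b ≠ 0 → (p ^ b = 2 ∧ (k = 2 → n % 4 ≠ 3)) ∨ (p ≠ 2 ∧ p ^ b ≤ k) ∨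
        (k < p ∧ ∃ i ≤ 2 * k - 2, p ^ b ∣ n - i)) →
      m' ∣ m * e → Unbounded (n.choose k * e) m') ∧
    (∀ n k m e m' : ℕ, 1 ≤ n → k ≤ n → 0 < m → 0 < e →
      (∀ p b, p.Prime → p ^ b ∣ m → b ≠ 0 → ∃ φ j c : ℕ, φ < n ∧ 2 * j ≤ φ ∧ j ≤ k ∧ k + j ≤ n ∧
        (∀ s, j ≤ s → s + j ≤ φ → s ≤ k → Nat.gcd (n - φ) (k - s) ∣ c) ∧
        p ^ b ∣ (n - φ) / Nat.gcd (n - φ) (c * if φ = 2 * j ∧ j ≠ 0 then 2 else 1)) →
      m' ∣ m * e → Unbounded (n.choose k * e) m') ∧
    -- examples
    (Unbounded 35 6 ∧ Unbounded 56 15 ∧ Unbounded 715 42 ∧ Unbounded 969 10) := by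
  refine ⟨?_, ?_, ?_, ?_, ?_, ?_, ?_, ?_, ?_⟩
  · intro n k m e m' hk hn he hm hd hm'
    exact sqfree hk hn hm he (fun p _ hp => hp.trans hd) hm'
  · intro n k m e m' hk hn he hm hd hm'
    refine sqfree hk hn hm he (fun p hp hpm => ?_) hm'
    exact ((hp.dvd_factorial).2 (by have := hd p hp hpm; omega)).trans (Nat.factorial_dvd_descFactorial _ _)
  · intro n k m e m' hm hk hn he hm'
    by_cases hk2 : 2 ≤ k
    · apply explicit hk2 hn hm.pos he _ hm'
      intro p b hp hd hb
      refine Or.inr (Or.inl ⟨?_, (Nat.le_of_dvd hm.pos hd).trans hk⟩)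
      rintro rfl
      have h2 : 2 ∣ m := (dvd_pow_self 2 hb).trans hd
      exact (Nat.not_even_iff_odd.2 hm) (even_iff_two_dvd.2 h2)
    · have hm1 : m = 1 := by have := hm.pos; omega
      subst hm1
      apply general (by have := hm.pos; omega) (by omega) one_pos he _ hm'
      intro p b hp hd hb
      have h3 := Nat.dvd_one.1 hd
      exact absurd h3 (Nat.one_lt_pow hb hp.one_lt).ne'
  · intro n k m e m' hk hn hm he h hm'
    exact explicit hk hn hm he h hm'
  · intro n k m e m' hn hk hm he h hm'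
    exact general hn hk hm he h hm'
  · have h := sqfree (n := 7) (k := 3) (m := 6) (e := 1) (m' := 6) (by norm_num) (by norm_num)
      (by rw [show (6 : ℕ) = 2 * 3 by norm_num, Nat.squarefree_mul (by norm_num)]
          exact ⟨Nat.prime_two.squarefree, Nat.prime_three.squarefree⟩) one_pos
      (fun p _ hp => hp.trans (by decide)) (by norm_num)
    simpa [Nat.choose] using h
  · have h := sqfree (n := 8) (k := 3) (m := 15) (e := 1) (m' := 15) (by norm_num) (by norm_num)
      (by rw [show (15 : ℕ) = 3 * 5 by norm_num, Nat.squarefree_mul (by norm_num)]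
          exact ⟨Nat.prime_three.squarefree, Nat.prime_five.squarefree⟩) one_pos
      (fun p _ hp => hp.trans (by decide)) (by norm_num)
    simpa [Nat.choose] using h
  · have h := sqfree (n := 13) (k := 4) (m := 42) (e := 1) (m' := 42) (by norm_num) (by norm_num)
      (by rw [show (42 : ℕ) = 6 * 7 by norm_num, Nat.squarefree_mul (by norm_num),
            show (6 : ℕ) = 2 * 3 by norm_num, Nat.squarefree_mul (by norm_num)]
          exact ⟨⟨Nat.prime_two.squarefree, Nat.prime_three.squarefree⟩, (by norm_num : Nat.Prime 7).squarefree⟩) one_pos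
      (fun p _ hp => hp.trans (by decide)) (by norm_num)
    simpa [Nat.choose] using h
  · have h := sqfree (n := 19) (k := 3) (m := 10) (e := 1) (m' := 10) (by norm_num) (by norm_num)
      (by rw [show (10 : ℕ) = 2 * 5 by norm_num, Nat.squarefree_mul (by norm_num)]
          exact ⟨Nat.prime_two.squarefree, Nat.prime_five.squarefree⟩) one_pos
      (fun p _ hp => hp.trans (by decide)) (by norm_num)
    simpa [Nat.choose] using h

end Pool.Agent.Results.MP_176ace_nt.BinomialDegrees
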