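import Pool.Agent.H450.GG.Fin

/-!
# Pairs `(d, m)` with `gcd(d, m) = 1` for which the `m`-rank of the class groups of the number fields of
degree `d` is unbounded

Idea (a genus theory for fields of pairs of roots). Let `n = M + 2` and let `f` be a monic integral polynomial
of degree `n` whose Galois group is doubly transitive, and let `p` run over primes with
`f = x^M (x - 1) (x + 1) + p` modulo `p^2`. Let `k = ℚ(θ)` be generated by a root of `f`, and
`K = ℚ(θ₁ + θ₂, θ₁ θ₂)`, a field of degree `n (n - 1) / 2`. At `p` there are one root `θ_a` near `1`, one root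
`θ_b` near `-1` and `M` small roots, of absolute value `p^(-1/M)`. The ideal `B_p = (p, θ₁ θ₂, θ₁ + θ₂ - 1)` of `K`
has absolute value `p^(-1/M)` at the pairs `{θ_a, small root}` and one elsewhere, and
`C_p = (p, θ₁ θ₂, θ₁ + θ₂ + 1)` in the same way for `b`. The maps `T β = β₁ β₂` from `k` to `K` and
`T' α = ∏_j α_{1j}` from `K` to `k` satisfy `T' T β = β^M N(β)`, and one finds `T T' (B_p / C_p) = (B_p / C_p)^M`.
If `∏ (B_p / C_p)^(a_p) = (α)` is a relation then `T T' α = ε α^M` with a unit `ε` of `K`. There are boundedly many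
classes of units modulo `M`-th powers, so one may suppose `ε = u^M`, and then the conjugates of `β = T' α` satisfy
`β_i β_j = γ_{ij}^M`. Hence `β_i^2 = (γ_ij γ_ik / γ_jk)^M`, and (after one more bounded step, since the splitting field
contains only the roots of unity `1, -1` of order dividing `M`) the number `γ_ij γ_ik / γ_jk` is in `ℚ(θ_i)`. At `θ_a`
this gives `M ∣ 2 a_p`. So the group of relations modulo `M` (`M` odd) or modulo `M / 2` (`M` even) is bounded, while
the number of the primes `p` is arbitrary.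
-/

set_option autoImplicit false

namespace Pool.Agent.Results.MP_176ace_nt.CoprimePairs

open NumberField

/-- The statement `S(d, m)` of the problem: for every `r` some number field of degree `d` has a class group
containing a subgroup isomorphic to `(ℤ/m)^r`. -/
def Unbounded (d m : ℕ) : Prop :=
  ∀ r : ℕ, ∃ (K : Type) (_ : Field K) (_ : NumberField K), Module.finrank ℚ K = d ∧
    ∃ f : Multiplicative (Fin r → ZMod m) →* ClassGroup (𝓞 K), Function.Injective f

theorem two_mul_choose (M : ℕ) : 2 * (M + 2).choose 2 = (M + 2) * (M + 1) := by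
  rw [Nat.choose_two_right, Nat.mul_div_cancel']
  · rfl
  · have : M + 2 - 1 = M + 1 := rfl
    rw [this]
    exact (Nat.even_mul_pred_self (M + 2)).two_dvd

theorem choose_even (μ : ℕ) : (2 * μ + 2).choose 2 = (μ + 1) * (2 * μ + 1) := by
  have := two_mul_choose (2 * μ)
  nlinarith

theorem coprime {M μ : ℕ} (h : Odd M ∧ μ = M ∨ M = 2 * μ) : Nat.Coprime ((M + 2).choose 2) μ := by
  rcases h with ⟨h1, rfl⟩ | rfl
  · have h2 : Nat.Coprime (2 * (μ + 2).choose 2) μ := by
      rw [two_mul_choose]
      have h3 : (μ + 2) * (μ + 1) = 2 + μ * (μ + 3) := by ring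
      rw [h3]
      have h4 : Nat.Coprime 2 μ := (Nat.coprime_two_left).2 h1
      exact (Nat.coprime_add_mul_left_left 2 μ (μ + 3)).2 h4
    exact Nat.Coprime.coprime_mul_left h2
  · rw [choose_even]
    have h3 : (μ + 1) * (2 * μ + 1) = 1 + μ * (2 * μ + 3) := by ring
    rw [h3]
    exact (Nat.coprime_add_mul_left_left 1 μ (2 * μ + 3)).2 (Nat.coprime_one_left μ)

theorem main {M μ : ℕ} (h0 : 0 < μ) (h : Odd M ∧ μ = M ∨ M = 2 * μ) (e n : ℕ) (he : 0 < e) (hn : n ∣ μ * e) :
    Unbounded ((M + 2).choose 2 * e) n := by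
  have h1 : Pool.Agent.R493.CR.S ((M + 2).choose 2) μ := by
    apply Pool.Agent.H450.GG.main M μ
    · rcases h with ⟨_, h⟩ | h <;> omega
    · omega
    · intro t ht
      rcases h with ⟨h2, rfl⟩ | rfl
      · have h3 : IsCoprime (μ : ℤ) 2 := by
          have : IsCoprime ((μ : ℕ) : ℤ) ((2 : ℕ) : ℤ) := Nat.isCoprime_iff_coprime.2 (Nat.coprime_two_right.2 h2)
          exact_mod_cast this
        exact h3.dvd_of_dvd_mul_left ht
      · push_cast at ht
        exact (mul_dvd_mul_iff_left (two_ne_zero)).1 ht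
  exact Pool.Agent.R493.CR.mono (mul_ne_zero h0.ne' he.ne') hn
    (Pool.Agent.R493.CR.closure h0.ne' he.ne' h1)

/-- **Theorem.** Let `μ = M` if `M` is odd, and `μ = M / 2` if `M` is even, `μ > 0`. The number
`d = (M + 1) (M + 2) / 2` is coprime to `μ`, and `S(d, μ)` holds; moreover `S(d e, n)` holds for all `e ≥ 1` and all
`n` dividing `μ e`. In particular, for every `m > 0`, the numbers `d = (m c + 1) (2 m c + 1)`, `c ≥ 1`, are coprime to
`m`, and `S(d, m)` holds for these `d` and all their multiples. For example `S(15, 2)`, `S(10, 3)`, `S(21, 5)` hold. -/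
theorem result :
    (∀ M μ : ℕ, 0 < μ → (Odd M ∧ μ = M ∨ M = 2 * μ) →
      Nat.Coprime ((M + 2).choose 2) μ ∧
      ∀ e n : ℕ, 0 < e → n ∣ μ * e → Unbounded ((M + 2).choose 2 * e) n) ∧
    (∀ m c e : ℕ, 0 < m → 0 < c → 0 < e →
      Nat.Coprime ((m * c + 1) * (2 * m * c + 1)) m ∧
      Unbounded ((m * c + 1) * (2 * m * c + 1) * e) m) ∧
    Unbounded 15 2 ∧ Unbounded 10 3 ∧ Unbounded 21 5 := by
  refine ⟨fun M μ h0 h => ⟨coprime h, fun e n he hn => main h0 h e n he hn⟩, ?_, ?_, ?_, ?_⟩
  · intro m c e hm hc he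
    have h1 : (2 * (m * c) + 2).choose 2 = (m * c + 1) * (2 * m * c + 1) := by
      rw [choose_even]
      ring
    rw [← h1]
    refine ⟨(coprime (Or.inr rfl)).coprime_dvd_right (dvd_mul_right m c), ?_⟩
    exact main (Nat.mul_pos hm hc) (Or.inr rfl) e m he (((dvd_mul_right m c)).mul_right e)
  · exact main (M := 4) (μ := 2) (by norm_num) (Or.inr rfl) 1 2 (by norm_num) (by norm_num)
  · exact main (M := 3) (μ := 3) (by norm_num) (Or.inl ⟨by decide, rfl⟩) 1 3 (by norm_num) (by norm_num)
  · exact main (M := 5) (μ := 5) (by norm_num) (Or.inl ⟨by decide, rfl⟩) 1 5 (by norm_num) (by norm_num)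

end Pool.Agent.Results.MP_176ace_nt.CoprimePairs
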