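import Pool.Agent.H450.FR.BFin

/-!
# `S(q^a b^M, m)` for `m ∣ M ∣ q^a - 1`, `gcd(b, m) = 1`; `S(d, 2)` for all `d > 1` except possibly the odd
squarefree numbers and the squares of the odd primes

Idea. Let `F` be the field with `q^a` elements (we may suppose that it is generated by an element `h` of order `M`).
We construct algebraic integers `θ_i`, `i ∈ F`, which are permuted by the Galois group through the maps
`i ↦ h^m i + x`, all translations occurring (a Frobenius field, built by two steps of Kummer descent: first a cyclic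
extension of degree `M`, as a sum over the roots of unity of order `M`, and then an extension with group `F` over it),
with prescribed local behaviour at `N + 2` primes `p ≡ 1 mod q M b`. Let `x_{i,s}`, `1 ≤ s ≤ b`, be the `b`-th roots of
`θ_i`. A block `w` is an index `i` together with a choice of one `b`-th root of each of the `M` numbers `θ_{i + h^j}`;
there are `q^a b^M` blocks, permuted transitively by the Galois group. Let `K` be the field of the polynomial
`∏_{x ∈ w} (X - x)` of one block, and put `T β = ∏_{x ∈ w} β_x` and `T' α = ∏_{w ∋ x} α_w`. If `∏_s β_{i,s} = 1` for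
all `i`, then `T' T β = β^c` with `c = M b^(M-1)`.
At `N` of the primes the inertia group has order `M` and fixes one index `a`: `θ_a` is near `1`, its `b`-th roots are
in `ℚ_p`, the other `θ_i` are small and `|θ_{a - h^j}| = p^(-1/M)`. The ideal `(p, ∏_{x ∈ w} (z - x), θ_i)` of `K`,
where `z` is an integer with `z^b ≡ 1 mod p` and `i` is the index of `w`, has absolute value `p^(-1/M)` at the blocks
which contain the `b`-th root `x_{a,s}` near `z`, and one elsewhere. The classes of the quotients of two of these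
ideals have only boundedly many relations modulo `m`: if `∏ (B_p / C_p)^(v_p) = (α)` then `T T' α = ε α^c` with a unit
`ε`; up to bounded ambiguity `T T' α = γ^M`, and `γ_w / γ_w'` for two blocks differing in one point depends, up to
bounded ambiguity, only on the two points, so it is in `ℚ_p` for the points `x_{a,s}`, `x_{a,t}`, which gives
`M ∣ b^(M-1) v_p` (with an additional factor `2` if `b = 2`).
-/

set_option autoImplicit false

namespace Pool.Agent.Results.MP_176ace_nt.FrobeniusDegrees

open NumberField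

/-- The statement `S(d, m)` of the problem: for every `r` some number field of degree `d` has a class group
containing a subgroup isomorphic to `(ℤ/m)^r`. -/
def Unbounded (d m : ℕ) : Prop :=
  ∀ r : ℕ, ∃ (K : Type) (_ : Field K) (_ : NumberField K), Module.finrank ℚ K = d ∧
    ∃ f : Multiplicative (Fin r → ZMod m) →* ClassGroup (𝓞 K), Function.Injective f

theorem main {q a M b m : ℕ} (hq : q.Prime) (ha : 0 < a) (hM : 2 ≤ M) (hMq : M ∣ q ^ a - 1) (hb : 2 ≤ b)
    (hm : m ∣ M) (hcop : Nat.Coprime b m) (e k : ℕ) (he : 0 < e) (hk : k ∣ m * e) :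
    Unbounded (q ^ a * b ^ M * e) k := by
  have hm0 : m ≠ 0 := by
    rintro rfl
    rw [Nat.zero_dvd] at hm
    omega
  exact Pool.Agent.R493.CR.mono (mul_ne_zero hm0 he.ne') hk
    (Pool.Agent.R493.CR.closure hm0 he.ne' (Pool.Agent.H450.FR.main q a M b m hq ha.ne' hM hMq hb hm hcop))

/-- the trivial case -/
theorem one : Pool.Agent.R493.CR.S 1 1 := by
  intro r
  refine ⟨ℚ, inferInstance, inferInstance, Module.finrank_self ℚ, 1, ?_⟩
  intro x y _
  have : Subsingleton (ZMod 1) := inferInstanceAs (Subsingleton (Fin 1))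
  exact Multiplicative.toAdd.injective (Subsingleton.elim _ _)

theorem of_dvd {d m : ℕ} (hd : 0 < d) (h : m ∣ d) : Unbounded d m := by
  have h1 := Pool.Agent.R493.CR.closure one_ne_zero hd.ne' one
  rw [one_mul] at h1
  exact Pool.Agent.R493.CR.mono hd.ne' h h1

theorem coprime {q a M b m : ℕ} (hq : q.Prime) (hMq : M ∣ q ^ a - 1) (hm : m ∣ M)
    (hcop : Nat.Coprime b m) : Nat.Coprime (q ^ a * b ^ M) m := by
  apply Nat.Coprime.mul_left
  · obtain ⟨t, ht⟩ := hm.trans hMq
    have h0 := pow_pos hq.pos a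
    have h1 : q ^ a = 1 + m * t := by omega
    rw [h1]
    exact (Nat.coprime_add_mul_left_left 1 m t).2 (Nat.coprime_one_left m)
  · exact Nat.Coprime.pow_left _ hcop

theorem prime_power {q c a m : ℕ} (hq : q.Prime) (ha : 0 < a) (hm : 2 ≤ m) (hmq : m ∣ q ^ a - 1) {d : ℕ} (hd : 0 < d)
    (h : q ^ (a + m + c) ∣ d) : Unbounded d (m * q ^ c) := by
  obtain ⟨e, rfl⟩ := h
  have he : 0 < e := Nat.pos_of_ne_zero (by rintro rfl; simp at hd)
  have h0 : Nat.Coprime q m := by
    have h1 := coprime (q := q) (a := a) (M := m) (b := 1) (m := m) hq hmq dvd_rfl (Nat.coprime_one_left m)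
    rw [one_pow, mul_one] at h1
    exact Nat.Coprime.coprime_dvd_left (dvd_pow_self q ha.ne') h1
  have h1 := main hq ha hm hmq hq.two_le dvd_rfl h0 (q ^ c * e) (m * q ^ c)
    (Nat.mul_pos (pow_pos hq.pos c) he) ⟨e, by ring⟩
  have h2 : q ^ a * q ^ m * (q ^ c * e) = q ^ (a + m + c) * e := by
    rw [pow_add, pow_add]
    ring
  rw [← h2]
  exact h1

theorem two {d : ℕ} (hd : 1 < d) (h1 : ¬ (Odd d ∧ Squarefree d)) (h2 : ¬ ∃ p : ℕ, p.Prime ∧ Odd p ∧ d = p ^ 2) :
    Unbounded d 2 := by
  rcases Nat.even_or_odd d with hev | hodd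
  · exact of_dvd (by omega) hev.two_dvd
  · have h3 : ¬ Squarefree d := fun h => h1 ⟨hodd, h⟩
    rw [Nat.squarefree_iff_prime_squarefree] at h3
    push Not at h3
    obtain ⟨p, hp, e, rfl⟩ := h3
    have hpo : Odd p := (Nat.odd_mul.1 (Nat.odd_mul.1 hodd).1).1
    have heo : Odd e := (Nat.odd_mul.1 hodd).2
    have he1 : e ≠ 1 := by
      rintro rfl
      exact h2 ⟨p, hp, hpo, by ring⟩
    obtain ⟨q, hq, f, rfl⟩ := Nat.exists_prime_and_dvd he1
    have hqo : Odd q := (Nat.odd_mul.1 heo).1
    have hf : 0 < f := (Nat.odd_mul.1 heo).2.pos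
    have h4 := main (q := q) (a := 1) (M := 2) (b := p) (m := 2) hq one_pos le_rfl
      (by
        rw [pow_one]
        obtain ⟨t, ht⟩ := hqo
        exact ⟨t, by omega⟩)
      hp.two_le dvd_rfl (Nat.coprime_two_right.2 hpo) f 2 hf (dvd_mul_right 2 f)
    have h5 : p * p * (q * f) = q ^ 1 * p ^ 2 * f := by ring
    rw [h5]
    exact h4

/-- **Theorem.** (1) Let `q` be a prime, `a ≥ 1`, `b ≥ 2`, and let `M ≥ 2` divide `q^a - 1` and `m` divide `M`, with
`gcd(b, m) = 1`. Then `q^a b^M` is prime to `m`, `S(q^a b^M, m)` holds, and `S(q^a b^M e, k)` holds for all `e ≥ 1`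
and `k ∣ m e`.
(2) If `q` is prime, `m ≥ 2` divides `q^a - 1`, `a ≥ 1`, then `S(d, m q^c)` holds for all `d > 0` divisible by
`q^(a + m + c)`.
(3) `S(d, 2)` holds for all `d > 1` which are not odd and squarefree, and not the square of an odd prime.
(4) In particular `S(63, 2)`, `S(125, 2)` and `S(104, 3)` hold. -/
theorem result :
    (∀ q a M b m : ℕ, q.Prime → 0 < a → 2 ≤ M → M ∣ q ^ a - 1 → 2 ≤ b → m ∣ M → Nat.Coprime b m →
      Nat.Coprime (q ^ a * b ^ M) m ∧
      ∀ e k : ℕ, 0 < e → k ∣ m * e → Unbounded (q ^ a * b ^ M * e) k) ∧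
    (∀ q c a m : ℕ, q.Prime → 0 < a → 2 ≤ m → m ∣ q ^ a - 1 →
      ∀ d : ℕ, 0 < d → q ^ (a + m + c) ∣ d → Unbounded d (m * q ^ c)) ∧
    (∀ d : ℕ, 1 < d → ¬ (Odd d ∧ Squarefree d) → (¬ ∃ p : ℕ, p.Prime ∧ Odd p ∧ d = p ^ 2) → Unbounded d 2) ∧
    Unbounded 63 2 ∧ Unbounded 125 2 ∧ Unbounded 104 3 := by
  refine ⟨?_, ?_, fun d hd h1 h2 => two hd h1 h2, ?_, ?_, ?_⟩
  · intro q a M b m hq ha hM hMq hb hm hcop
    exact ⟨coprime hq hMq hm hcop, fun e k he hk => main hq ha hM hMq hb hm hcop e k he hk⟩
  · intro q c a m hq ha hm hmq d hd h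
    exact prime_power hq ha hm hmq hd h
  · exact main (q := 7) (a := 1) (M := 2) (b := 3) (m := 2) (by norm_num) (by norm_num) (by norm_num) (by norm_num)
      (by norm_num) (by norm_num) (by norm_num) 1 2 (by norm_num) (by norm_num)
  · exact main (q := 5) (a := 1) (M := 2) (b := 5) (m := 2) (by norm_num) (by norm_num) (by norm_num) (by norm_num)
      (by norm_num) (by norm_num) (by norm_num) 1 2 (by norm_num) (by norm_num)
  · exact main (q := 13) (a := 1) (M := 3) (b := 2) (m := 3) (by norm_num) (by norm_num) (by norm_num) (by norm_num)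
      (by norm_num) (by norm_num) (by norm_num) 1 3 (by norm_num) (by norm_num)

end Pool.Agent.Results.MP_176ace_nt.FrobeniusDegrees
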