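import Pool.Agent.H450.GW.WFin

/-!
# `S(n b^(n-1), m)` for `m ∣ n - 1` prime to `b`, and `S(d, m)` for all `d` divisible by a high power of a prime

Idea. Let `f` be a monic integral polynomial of degree `n` with roots `θ_1, …, θ_n` and let
`x_{j,s}`, `1 ≤ s ≤ b`, be the `b`-th roots of `θ_j`. A block is a set `w` of `n - 1` of the `x_{j,s}`, one for each
index `j ≠ i`, for some index `i`; there are `n b^(n-1)` blocks, and the Galois group will permute them transitively.
Let `K` be the field of the polynomial `∏_{x ∈ w} (X - x)` of one block. Put `T β = ∏_{x ∈ w} β_x`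
and `T' α = ∏_{w ∋ x} α_w`. If `∏_s β_{j,s} = 1` for all `j` then `T' T β = β^c` with `c = (n - 1) b^(n-2)`.
Let `p` run over primes `p ≡ 1 mod b` with `f = (X - 1) (X - 2^b)^(n-1) + p` modulo `p^2`. One root `θ_a` is near `1`,
its `b`-th roots are in `ℚ_p`; the other `n - 1` roots are ramified, `|θ_i - 2^b| = p^(-1/(n-1))`. The ideal
`(p, ∏_{x ∈ w} (z - x), θ_i - 2^b)` of `K`, where `z^b ≡ 1 mod p` is an integer and `i` is the missing index of `w`,
has absolute value `p^(-1/(n-1))` at the blocks which contain the `b`-th root `x_{a,s}` near `z`, and one elsewhere.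
The classes of the quotients of two of these ideals (for `z = 1` and another `z`) have only boundedly many
relations modulo `m`: a relation `∏ (B_p / C_p)^(v_p) = (α)` gives `T T' α = ε α^c` with a unit `ε`; up to bounded
ambiguity `T T' α = γ^(n-1)`, and `D = γ_w / γ_w'` for two blocks differing in one point depends (up to bounded
ambiguity) only on the two points, so it is in `ℚ_p` for the points `x_{a,s}`, `x_{a,t}`, which gives
`(n - 1) ∣ b^(n-2) v_p` (with an additional factor `2` if `b = 2`).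
-/

set_option autoImplicit false

namespace Pool.Agent.Results.MP_176ace_nt.PrimePowerDegrees

open NumberField

/-- The statement `S(d, m)` of the problem: for every `r` some number field of degree `d` has a class group
containing a subgroup isomorphic to `(ℤ/m)^r`. -/
def Unbounded (d m : ℕ) : Prop :=
  ∀ r : ℕ, ∃ (K : Type) (_ : Field K) (_ : NumberField K), Module.finrank ℚ K = d ∧
    ∃ f : Multiplicative (Fin r → ZMod m) →* ClassGroup (𝓞 K), Function.Injective f

theorem main {n b m : ℕ} (hn : 3 ≤ n) (hb : 2 ≤ b) (hm : 0 < m) (hmn : m ∣ n - 1) (hcop : Nat.Coprime b m)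
    (e k : ℕ) (he : 0 < e) (hk : k ∣ m * e) : Unbounded (n * b ^ (n - 1) * e) k :=
  Pool.Agent.R493.CR.mono (mul_ne_zero hm.ne' he.ne') hk
    (Pool.Agent.R493.CR.closure hm.ne' he.ne' (Pool.Agent.H450.GW.main n b m hn hb hmn hcop))

theorem prime_power (m q : ℕ) (hm : 0 < m) (hq : q.Prime) :
    ∃ K : ℕ, ∀ d : ℕ, 0 < d → q ^ K ∣ d → Unbounded d m := by
  obtain ⟨a, m', hm', rfl⟩ := Nat.exists_eq_pow_mul_and_not_dvd hm.ne' q hq.ne_one
  have hm'0 : 0 < m' := Nat.pos_of_ne_zero (by rintro rfl; simp at hm')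
  have hcop : Nat.Coprime q m' := (Nat.Prime.coprime_iff_not_dvd hq).2 hm'
  obtain ⟨f, hf⟩ : ∃ f, f = 2 * Nat.totient m' := ⟨_, rfl⟩
  have hf2 : 2 ≤ f := by
    have := Nat.totient_pos.2 hm'0
    omega
  obtain ⟨n, hn⟩ : ∃ n, n = q ^ f := ⟨_, rfl⟩
  have hn4 : 4 ≤ n := by
    rw [hn]
    calc 4 = 2 ^ 2 := by norm_num
      _ ≤ q ^ 2 := Nat.pow_le_pow_left hq.two_le 2
      _ ≤ q ^ f := Nat.pow_le_pow_right hq.pos hf2
  have hmn : m' ∣ n - 1 := by
    have h1 : n ≡ 1 [MOD m'] := by
      rw [hn, hf, mul_comm, pow_mul]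
      have := (Nat.ModEq.pow_totient hcop).pow 2
      simpa using this
    exact (Nat.modEq_iff_dvd' (by omega)).1 h1.symm
  refine ⟨f + (n - 1) + a, ?_⟩
  rintro d hd ⟨e, rfl⟩
  have he : 0 < e := Nat.pos_of_ne_zero (by rintro rfl; simp at hd)
  have h1 := main (by omega : 3 ≤ n) hq.two_le hm'0 hmn hcop (q ^ a * e) (q ^ a * m')
    (Nat.mul_pos (pow_pos hq.pos a) he) ⟨e, by ring⟩
  have h2 : n * q ^ (n - 1) * (q ^ a * e) = q ^ (f + (n - 1) + a) * e := by
    conv_lhs => rw [show n * q ^ (n - 1) = q ^ f * q ^ (n - 1) by rw [← hn]]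
    rw [pow_add, pow_add]
    ring
  rw [← h2]
  exact h1

/-- **Theorem.** (1) Let `n ≥ 3`, `b ≥ 2` and let `m ∣ n - 1` be prime to `b`. Then `n b^(n-1)` is prime to `m`,
`S(n b^(n-1), m)` holds, and `S(n b^(n-1) e, k)` holds for all `e ≥ 1` and `k ∣ m e`.
(2) For all `m ≥ 1` and all primes `q` there is `K` such that `S(d, m)` holds for all `d > 0` divisible by `q^K`.
(3) In particular `S(27, 2)`, `S(32, 3)`, `S(3125, 4)` and `S(1024, 7)` hold. -/
theorem result :
    (∀ n b m : ℕ, 3 ≤ n → 2 ≤ b → 0 < m → m ∣ n - 1 → Nat.Coprime b m →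
      Nat.Coprime (n * b ^ (n - 1)) m ∧
      ∀ e k : ℕ, 0 < e → k ∣ m * e → Unbounded (n * b ^ (n - 1) * e) k) ∧
    (∀ m q : ℕ, 0 < m → q.Prime → ∃ K : ℕ, ∀ d : ℕ, 0 < d → q ^ K ∣ d → Unbounded d m) ∧
    Unbounded 27 2 ∧ Unbounded 32 3 ∧ Unbounded 3125 4 ∧ Unbounded 1024 7 := by
  refine ⟨?_, prime_power, ?_, ?_, ?_, ?_⟩
  · intro n b m hn hb hm hmn hcop
    refine ⟨?_, fun e k he hk => main hn hb hm hmn hcop e k he hk⟩
    apply Nat.Coprime.mul_left
    · obtain ⟨t, ht⟩ := hmn
      have h1 : n = 1 + m * t := by omega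
      rw [h1]
      exact (Nat.coprime_add_mul_left_left 1 m t).2 (Nat.coprime_one_left m)
    · exact Nat.Coprime.pow_left _ hcop
  · exact main (n := 3) (b := 3) (m := 2) (by norm_num) (by norm_num) (by norm_num) (by norm_num) (by norm_num) 1 2
      (by norm_num) (by norm_num)
  · exact main (n := 4) (b := 2) (m := 3) (by norm_num) (by norm_num) (by norm_num) (by norm_num) (by norm_num) 1 3
      (by norm_num) (by norm_num)
  · exact main (n := 5) (b := 5) (m := 4) (by norm_num) (by norm_num) (by norm_num) (by norm_num) (by norm_num) 1 4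
      (by norm_num) (by norm_num)
  · exact main (n := 8) (b := 2) (m := 7) (by norm_num) (by norm_num) (by norm_num) (by norm_num) (by norm_num) 1 7
      (by norm_num) (by norm_num)

end Pool.Agent.Results.MP_176ace_nt.PrimePowerDegrees
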